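import Mathlib
import Pool.Agent.W890.SF.All
import Pool.Agent.W890.SF.R2

/-! The Erdős matching conjecture for `n ≥ (k + 39/40) s` and `n` large. -/

set_option autoImplicit false

namespace Pool.Agent.Results.MP_9079fe_co.ExactBeyondKPlus39Over40

open Finset

/-- The members of `M` are pairwise disjoint. -/
def IsMatching {n : ℕ} (M : Finset (Finset (Fin n))) : Prop :=
  (M : Set (Finset (Fin n))).PairwiseDisjoint id

/-- `v = e_k(n,s)`: `v` is the largest number of members of a family of `k`-subsets of `Fin n` with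
matching number at most `s`. -/
def IsMax (n k s v : ℕ) : Prop :=
  IsGreatest {c : ℕ | ∃ F : Finset (Finset (Fin n)), (∀ A ∈ F, A.card = k) ∧
    (∀ M ⊆ F, IsMatching M → M.card ≤ s) ∧ F.card = c} v

/-- For every `k ≥ 2` there is `n0` such that for all `n ≥ n0` and all `s` with
`n ≥ (k + 39/40) s` one has `n ≥ k (s+1)` and the Erdős matching conjecture holds for `n, k, s`;
the maximum is the number of `k`-sets meeting a fixed `s`-set. -/
theorem result (k : ℕ) (hk : 2 ≤ k) :
    ∃ n0 : ℕ, ∀ n : ℕ, n0 ≤ n → ∀ s : ℕ, (k + 39 / 40 : ℝ) * s ≤ n →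
      k * (s + 1) ≤ n ∧
      IsMax n k s (max (n.choose k - (n - s).choose k) ((k * (s + 1) - 1).choose k)) ∧
      (k * (s + 1) - 1).choose k ≤ n.choose k - (n - s).choose k := by
  obtain ⟨n0, h⟩ := Pool.Agent.W890.SF.R2.greatest Pool.Agent.W890.SF.t_EMC
    Pool.Agent.W890.SF.t_LOW k hk
  refine ⟨n0, fun n hn s hs => ?_⟩
  obtain ⟨h1, h2, h3⟩ := h n hn s (by
    have h4 : ((40 * k + 39 : ℕ) : ℝ) * s ≤ 40 * n := by push_cast; linarith
    exact_mod_cast h4)
  exact ⟨h3, h1, h2⟩

end Pool.Agent.Results.MP_9079fe_co.ExactBeyondKPlus39Over40
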